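import Mathlib

/-!
Quadratic Gauss sums attached to `h(u) = exp(π i (3 u^2 + N u) / N)`.
-/

namespace Pool.Agent.H197R4.VL

open Finset Complex

/-- The quadratic exponential `exp(π i (3 u^2 + N u) / N)`. -/
noncomputable def h (N : ℕ) (u : ℤ) : ℂ :=
  Complex.exp (Real.pi * Complex.I * ((3 * u ^ 2 + N * u : ℤ) : ℂ) / N)

/-- The character `exp(2 π i u / N)`. -/
noncomputable def om (N : ℕ) (u : ℤ) : ℂ :=
  Complex.exp (2 * Real.pi * Complex.I * (u : ℂ) / N)

/-- The Gauss sum with shift `m`. -/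
noncomputable def H (N : ℕ) (m : ℤ) : ℂ := ∑ u ∈ range N, h N (u : ℤ) * om N (m * u)

lemma exp_eq_one_of (a : ℤ) : Complex.exp (2 * Real.pi * Complex.I * (a : ℂ)) = 1 := by
  rw [Complex.exp_eq_one_iff]
  exact ⟨a, by ring⟩

lemma om_zero (N : ℕ) : om N 0 = 1 := by simp [om]

lemma om_add (N : ℕ) (a b : ℤ) : om N (a + b) = om N a * om N b := by
  rw [om, om, om, ← Complex.exp_add]
  congr 1
  push_cast
  ring

lemma om_mul_N {N : ℕ} (hN : 0 < N) (k : ℤ) : om N (k * N) = 1 := by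
  have h0 : (N : ℂ) ≠ 0 := by exact_mod_cast hN.ne'
  rw [om, ← exp_eq_one_of k]
  congr 1
  push_cast
  field_simp

lemma h_zero (N : ℕ) : h N 0 = 1 := by simp [h]

lemma h_add {N : ℕ} (u c : ℤ) : h N (u + c) = h N u * h N c * om N (3 * u * c) := by
  rw [h, h, h, om, ← Complex.exp_add, ← Complex.exp_add]
  congr 1
  push_cast
  ring

lemma h_neg {N : ℕ} (hN : 0 < N) (u : ℤ) : h N (-u) = h N u := by
  have h0 : (N : ℂ) ≠ 0 := by exact_mod_cast hN.ne'
  rw [h, h, ← mul_one (Complex.exp _), ← exp_eq_one_of u, ← Complex.exp_add]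
  congr 1
  push_cast
  field_simp
  ring

lemma h_N {N : ℕ} (hN : 0 < N) : h N N = 1 := by
  have h0 : (N : ℂ) ≠ 0 := by exact_mod_cast hN.ne'
  rw [h, ← exp_eq_one_of (2 * N)]
  congr 1
  push_cast
  field_simp
  ring

lemma h_periodic {N : ℕ} (hN : 0 < N) (u : ℤ) : h N (u + N) = h N u := by
  rw [h_add, h_N hN, om_mul_N hN]; ring

lemma om_periodic {N : ℕ} (hN : 0 < N) (u : ℤ) (m : ℤ) : om N (m * (u + N)) = om N (m * u) := by
  rw [mul_add, om_add, om_mul_N hN, mul_one]

lemma norm_h (N : ℕ) (u : ℤ) : ‖h N u‖ = 1 := by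
  rw [h]
  have : (Real.pi * Complex.I * ((3 * u ^ 2 + N * u : ℤ) : ℂ) / N : ℂ)
      = ((Real.pi * ((3 * u ^ 2 + N * u : ℤ) : ℝ) / N : ℝ) : ℂ) * Complex.I := by
    push_cast; ring
  rw [this, Complex.norm_exp_ofReal_mul_I]

lemma norm_om (N : ℕ) (u : ℤ) : ‖om N u‖ = 1 := by
  rw [om]
  have : (2 * Real.pi * Complex.I * (u : ℂ) / N : ℂ)
      = ((2 * Real.pi * (u : ℝ) / N : ℝ) : ℂ) * Complex.I := by
    push_cast; ring
  rw [this, Complex.norm_exp_ofReal_mul_I]

lemma h_mul_conj (N : ℕ) (u : ℤ) : h N u * (starRingEnd ℂ) (h N u) = 1 := by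
  rw [Complex.mul_conj, Complex.normSq_eq_norm_sq, norm_h]; simp

/-- Shift invariance of sums over a full period. -/
lemma sum_shift {N : ℕ} (f : ℤ → ℂ) (hf : ∀ u, f (u + N) = f u) (c : ℤ) :
    ∑ u ∈ range N, f ((u : ℤ) + c) = ∑ u ∈ range N, f (u : ℤ) := by
  have step : ∀ c : ℤ, ∑ u ∈ range N, f ((u : ℤ) + (c + 1)) = ∑ u ∈ range N, f ((u : ℤ) + c) := by
    intro c
    have h1 : ∑ u ∈ range (N + 1), f ((u : ℤ) + c)
        = ∑ u ∈ range N, f ((u : ℤ) + c) + f ((N : ℤ) + c) := Finset.sum_range_succ _ _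
    have h2 : ∑ u ∈ range (N + 1), f ((u : ℤ) + c)
        = ∑ u ∈ range N, f (((u + 1 : ℕ) : ℤ) + c) + f (((0 : ℕ) : ℤ) + c) :=
      Finset.sum_range_succ' _ _
    have h3 : f ((N : ℤ) + c) = f (((0 : ℕ) : ℤ) + c) := by
      rw [add_comm (N : ℤ) c, hf]; simp
    have h4 : ∑ u ∈ range N, f (((u + 1 : ℕ) : ℤ) + c) = ∑ u ∈ range N, f ((u : ℤ) + (c + 1)) := by
      apply Finset.sum_congr rfl
      intro u _
      congr 1
      push_cast
      ring
    rw [← h4]
    have := h1.symm.trans h2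
    rw [h3] at this
    exact (add_right_cancel this).symm
  induction c using Int.induction_on with
  | zero => simp
  | succ n ih => rw [step, ih]
  | pred n ih =>
    rw [← ih, ← step (-(n : ℤ) - 1)]
    apply Finset.sum_congr rfl
    intro u _
    congr 1
    ring

/-- Completing the square. -/
lemma H_eq {N : ℕ} (hN : 0 < N) {m c k : ℤ} (hc : 3 * c = m + k * N) :
    H N m = H N 0 * (starRingEnd ℂ) (h N c) := by
  have key : ∀ u : ℤ, h N u * om N (m * u) = h N (u + c) * (starRingEnd ℂ) (h N c) := by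
    intro u
    have h1 : om N (3 * u * c) = om N (m * u) := by
      have : 3 * u * c = m * u + (u * k) * N := by
        have : 3 * u * c = u * (3 * c) := by ring
        rw [this, hc]; ring
      rw [this, om_add, om_mul_N hN, mul_one]
    rw [h_add, h1]
    calc h N u * om N (m * u) = h N u * om N (m * u) * (h N c * (starRingEnd ℂ) (h N c)) := by
          rw [h_mul_conj, mul_one]
      _ = _ := by ring
  have key' : ∀ u ∈ range N, h N (u : ℤ) * om N (m * (u : ℤ))
      = h N ((u : ℤ) + c) * (starRingEnd ℂ) (h N c) := fun u _ => key u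
  rw [H, Finset.sum_congr rfl key', ← Finset.sum_mul,
    sum_shift (fun u => h N u) (h_periodic hN) c, H]
  congr 1
  apply Finset.sum_congr rfl
  intro u _
  simp [om_zero]

lemma om_geom {N : ℕ} (hN : 0 < N) (a : ℤ) :
    ∑ w ∈ range N, om N (a * w) = if (N : ℤ) ∣ a then (N : ℂ) else 0 := by
  split_ifs with hd
  · obtain ⟨k, hk⟩ := hd
    have : ∀ w ∈ range N, om N (a * w) = 1 := by
      intro w _
      have h2 : a * (w : ℤ) = (k * w) * N := by rw [hk]; ring
      rw [h2, om_mul_N hN]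
    rw [Finset.sum_congr rfl this]
    simp
  · have h0 : (N : ℂ) ≠ 0 := by exact_mod_cast hN.ne'
    have h1 : om N a ≠ 1 := by
      intro h
      rw [om, Complex.exp_eq_one_iff] at h
      obtain ⟨n, hn⟩ := h
      apply hd
      refine ⟨n, ?_⟩
      have hpi : (2 * (Real.pi : ℂ) * Complex.I) ≠ 0 := Complex.two_pi_I_ne_zero
      have h3 : (2 * (Real.pi : ℂ) * Complex.I) * (a : ℂ) = (2 * (Real.pi : ℂ) * Complex.I) * ((N : ℂ) * n) := by
        field_simp at hn
        rw [hn]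
      have h4 := mul_left_cancel₀ hpi h3
      exact_mod_cast h4
    have h2 : ∀ w ∈ range N, om N (a * w) = (om N a) ^ w := by
      intro w _
      rw [om, om, ← Complex.exp_nat_mul]
      congr 1
      push_cast
      ring
    rw [Finset.sum_congr rfl h2, geom_sum_eq h1]
    have h3 : (om N a) ^ N = 1 := by
      rw [om, ← Complex.exp_nat_mul, ← exp_eq_one_of a]
      congr 1
      field_simp
    rw [h3]; simp

lemma H_zero_sq {N : ℕ} (hN : 0 < N) :
    H N 0 * (starRingEnd ℂ) (H N 0) =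
      ∑ d ∈ range N, h N d * (if (N : ℤ) ∣ 3 * d then (N : ℂ) else 0) := by
  have h0 : H N 0 = ∑ u ∈ range N, h N (u : ℤ) := by
    rw [H]
    apply Finset.sum_congr rfl
    intro u _
    simp [om_zero]
  rw [h0, map_sum, Finset.mul_sum]
  have h1 : ∀ w ∈ range N, (∑ u ∈ range N, h N (u : ℤ)) * (starRingEnd ℂ) (h N (w : ℤ))
      = ∑ d ∈ range N, h N (d : ℤ) * om N (3 * d * w) := by
    intro w _
    rw [← sum_shift (fun u => h N u) (h_periodic hN) (w : ℤ), Finset.sum_mul]
    apply Finset.sum_congr rfl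
    intro d _
    rw [h_add]
    calc h N d * h N w * om N (3 * d * w) * (starRingEnd ℂ) (h N w)
        = h N d * om N (3 * d * w) * (h N w * (starRingEnd ℂ) (h N w)) := by ring
      _ = _ := by rw [h_mul_conj, mul_one]
  rw [Finset.sum_congr rfl h1, Finset.sum_comm]
  apply Finset.sum_congr rfl
  intro d _
  rw [← Finset.mul_sum, om_geom hN]

lemma norm_H_zero_of_not {N : ℕ} (hN : 0 < N) (h3 : ¬ 3 ∣ N) : ‖H N 0‖ = Real.sqrt N := by
  have h1 := H_zero_sq hN
  rw [Finset.sum_eq_single_of_mem 0 (by simpa using hN)] at h1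
  · simp only [Nat.cast_zero, h_zero, mul_zero, dvd_zero, if_true, one_mul] at h1
    rw [Complex.mul_conj, Complex.normSq_eq_norm_sq] at h1
    have h2 : ‖H N 0‖ ^ 2 = (N : ℝ) := by exact_mod_cast h1
    rw [← h2, Real.sqrt_sq (norm_nonneg _)]
  · intro d hd hd0
    rw [if_neg, mul_zero]
    intro hdvd
    have hdvd' : N ∣ 3 * d := by exact_mod_cast hdvd
    have hcop : Nat.Coprime N 3 := by
      rw [Nat.coprime_comm]
      exact (Nat.Prime.coprime_iff_not_dvd Nat.prime_three).2 h3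
    have := hcop.dvd_of_dvd_mul_left hdvd'
    have hlt := Finset.mem_range.1 hd
    exact hd0 (Nat.eq_zero_of_dvd_of_lt this hlt)

lemma h_third {N M : ℕ} (hM : 0 < M) (hN : N = 3 * M) (j : ℤ) : h N (j * M) = 1 := by
  have h0 : (M : ℂ) ≠ 0 := by exact_mod_cast hM.ne'
  obtain ⟨t, ht⟩ : ∃ t : ℤ, j ^ 2 + j = 2 * t := by
    have : Even (j * (j + 1)) := Int.even_mul_succ_self j
    obtain ⟨t, ht⟩ := this
    exact ⟨t, by rw [← two_mul] at ht; linarith [ht, (by ring : j ^ 2 + j = j * (j + 1))]⟩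
  rw [h, ← exp_eq_one_of (M * t), hN]
  congr 1
  have ht' : ((j : ℂ)) ^ 2 + j = 2 * t := by exact_mod_cast ht
  push_cast
  field_simp
  linear_combination ht'

lemma norm_H_zero_of_dvd {N : ℕ} (hN : 0 < N) (h3 : 3 ∣ N) : ‖H N 0‖ = Real.sqrt (3 * N) := by
  obtain ⟨M, rfl⟩ := h3
  have hM : 0 < M := by omega
  have h1 := H_zero_sq hN
  have hsub : ({0, M, 2 * M} : Finset ℕ) ⊆ range (3 * M) := by
    intro x hx
    simp only [Finset.mem_insert, Finset.mem_singleton] at hx
    rw [Finset.mem_range]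
    omega
  rw [← Finset.sum_subset hsub] at h1
  · have hv : ∀ d ∈ ({0, M, 2 * M} : Finset ℕ),
        h (3 * M) (d : ℤ) * (if (((3 * M : ℕ) : ℤ) ∣ 3 * (d : ℤ)) then ((3 * M : ℕ) : ℂ) else 0)
          = ((3 * M : ℕ) : ℂ) := by
      intro d hd
      simp only [Finset.mem_insert, Finset.mem_singleton] at hd
      obtain ⟨j, hj⟩ : ∃ j : ℕ, d = j * M := by
        rcases hd with h | h | h
        · exact ⟨0, by simp [h]⟩
        · exact ⟨1, by simp [h]⟩
        · exact ⟨2, by simp [h]⟩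
      have hh : h (3 * M) (d : ℤ) = 1 := by
        have := h_third hM rfl (j : ℤ)
        rw [hj]; push_cast; exact this
      rw [hh, if_pos, one_mul]
      refine ⟨j, ?_⟩
      rw [hj]; push_cast; ring
    rw [Finset.sum_congr rfl hv, Finset.sum_const] at h1
    have hcard : ({0, M, 2 * M} : Finset ℕ).card = 3 := by
      rw [Finset.card_insert_of_notMem, Finset.card_insert_of_notMem, Finset.card_singleton]
      · simp; omega
      · simp; omega
    rw [hcard, Complex.mul_conj, Complex.normSq_eq_norm_sq, nsmul_eq_mul] at h1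
    have h2 : ‖H (3 * M) 0‖ ^ 2 = 3 * ((3 * M : ℕ) : ℝ) := by exact_mod_cast h1
    rw [← h2, Real.sqrt_sq (norm_nonneg _)]
  · intro d hd hd'
    rw [if_neg, mul_zero]
    intro hdvd
    apply hd'
    have hdvd' : 3 * M ∣ 3 * d := by exact_mod_cast hdvd
    have hMd : M ∣ d := Nat.dvd_of_mul_dvd_mul_left (by norm_num) hdvd'
    obtain ⟨j, rfl⟩ := hMd
    have hlt := Finset.mem_range.1 hd
    have hj : j < 3 := by
      by_contra hcon
      have : 3 ≤ j := by omega
      have : M * 3 ≤ M * j := Nat.mul_le_mul_left _ this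
      omega
    simp only [Finset.mem_insert, Finset.mem_singleton]
    interval_cases j
    · left; ring
    · right; left; ring
    · right; right; ring

lemma H_eq_zero {N : ℕ} (hN : 0 < N) (h3 : 3 ∣ N) {m : ℤ} (hm : ¬ (3 : ℤ) ∣ m) : H N m = 0 := by
  obtain ⟨M, hMN⟩ := h3
  have hM : 0 < M := by omega
  have hper : ∀ u : ℤ, h N (u + N) * om N (m * (u + N)) = h N u * om N (m * u) := by
    intro u; rw [h_periodic hN, om_periodic hN]
  have hs := sum_shift (fun u => h N u * om N (m * u)) hper (M : ℤ)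
  have h1 : ∀ u ∈ range N, (fun u : ℤ => h N u * om N (m * u)) ((u : ℤ) + M)
      = om N (m * M) * (h N (u : ℤ) * om N (m * u)) := by
    intro u _
    simp only
    have ha : h N ((u : ℤ) + M) = h N (u : ℤ) := by
      have h2 := h_third hM hMN 1
      rw [one_mul] at h2
      rw [h_add, h2]
      have : 3 * (u : ℤ) * M = u * N := by rw [hMN]; push_cast; ring
      rw [this, om_mul_N hN]; ring
    rw [ha, mul_add, om_add]
    ring
  rw [Finset.sum_congr rfl h1, ← Finset.mul_sum] at hs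
  have hH : om N (m * M) * H N m = H N m := hs
  have hne : om N (m * M) ≠ 1 := by
    intro h
    rw [om, Complex.exp_eq_one_iff] at h
    obtain ⟨n, hn⟩ := h
    apply hm
    refine ⟨n, ?_⟩
    have h0 : (M : ℂ) ≠ 0 := by exact_mod_cast hM.ne'
    have hpi : (2 * (Real.pi : ℂ) * Complex.I) ≠ 0 := Complex.two_pi_I_ne_zero
    rw [hMN] at hn
    push_cast at hn
    have h3 : (2 * (Real.pi : ℂ) * Complex.I) * (m : ℂ) = (2 * (Real.pi : ℂ) * Complex.I) * (3 * n) := by
      field_simp at hn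
      rw [hn]
    have h4 := mul_left_cancel₀ hpi h3
    exact_mod_cast h4
  have : (om N (m * M) - 1) * H N m = 0 := by rw [sub_mul, hH]; ring
  rcases mul_eq_zero.1 this with h | h
  · exact absurd (sub_eq_zero.1 h) hne
  · exact h

lemma norm_H_of_dvd {N : ℕ} (hN : 0 < N) {m : ℤ} (hm : (3 : ℤ) ∣ m) : ‖H N m‖ = ‖H N 0‖ := by
  obtain ⟨c, rfl⟩ := hm
  rw [H_eq hN (c := c) (k := 0) (by ring), norm_mul, RCLike.norm_conj, norm_h, mul_one]

lemma norm_H_of_not {N : ℕ} (hN : 0 < N) (h3 : ¬ 3 ∣ N) (m : ℤ) : ‖H N m‖ = ‖H N 0‖ := by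
  obtain ⟨c, hc⟩ : (3 : ℤ) ∣ m * (1 - (N : ℤ) ^ 2) := by
    apply Dvd.dvd.mul_left
    have : (N : ℤ) % 3 = 1 ∨ (N : ℤ) % 3 = 2 := by omega
    rcases this with h | h
    · rw [Int.dvd_iff_emod_eq_zero, Int.sub_emod, pow_two, Int.mul_emod, h]; norm_num
    · rw [Int.dvd_iff_emod_eq_zero, Int.sub_emod, pow_two, Int.mul_emod, h]; norm_num
  rw [H_eq hN (c := c) (k := - m * N) (by rw [← hc]; ring), norm_mul, RCLike.norm_conj, norm_h,
    mul_one]

/-- The values at `m = 1` and `m = -1`. -/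
lemma exists_W {N : ℕ} (hN : 2 ≤ N) (h3 : ¬ 3 ∣ N) :
    ∃ W : ℂ, ‖W‖ = 1 ∧ W.re ≤ 0 ∧ H N 1 = - H N 0 * W ∧ H N (-1) = - H N 0 * W := by
  have hN0 : 0 < N := by omega
  have h0 : (N : ℂ) ≠ 0 := by exact_mod_cast hN0.ne'
  have h0R : (0 : ℝ) < N := by exact_mod_cast hN0
  have h2R : (2 : ℝ) ≤ N := by exact_mod_cast hN
  have : N % 3 = 1 ∨ N % 3 = 2 := by omega
  rcases this with hr | hr
  · -- N = 3 j + 1
    obtain ⟨j, hj⟩ : ∃ j, N = 3 * j + 1 := ⟨N / 3, by omega⟩
    have e1 : H N 1 = H N 0 * (starRingEnd ℂ) (h N (-(j : ℤ))) :=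
      H_eq hN0 (k := -1) (by rw [hj]; push_cast; ring)
    have e2 : H N (-1) = H N 0 * (starRingEnd ℂ) (h N (j : ℤ)) :=
      H_eq hN0 (k := 1) (by rw [hj]; push_cast; ring)
    rw [h_neg hN0] at e1
    have hv : h N (j : ℤ) = Complex.exp (((-(Real.pi * ((N - 1) / (3 * N)))) : ℝ) * Complex.I) := by
      rw [h, ← mul_one (Complex.exp (_ * Complex.I)), ← exp_eq_one_of (j : ℤ), ← Complex.exp_add]
      congr 1
      have hjc : (N : ℂ) = 3 * j + 1 := by exact_mod_cast hj
      push_cast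
      field_simp
      have hjc' : (j : ℂ) = (N - 1) / 3 := by rw [hjc]; ring
      rw [hjc']
      ring
    refine ⟨-(starRingEnd ℂ) (h N (j : ℤ)), ?_, ?_, ?_, ?_⟩
    · rw [norm_neg, RCLike.norm_conj, norm_h]
    · rw [Complex.neg_re, Complex.conj_re, hv, Complex.exp_ofReal_mul_I_re, Real.cos_neg]
      have : 0 ≤ Real.cos (Real.pi * ((N - 1) / (3 * N))) := by
        apply Real.cos_nonneg_of_neg_pi_div_two_le_of_le
        · have : 0 ≤ Real.pi * (((N : ℝ) - 1) / (3 * N)) := by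
            apply mul_nonneg Real.pi_pos.le
            apply div_nonneg <;> linarith
          linarith [Real.pi_pos]
        · have : ((N : ℝ) - 1) / (3 * N) ≤ 1 / 2 := by
            rw [div_le_div_iff₀ (by linarith) (by norm_num)]; linarith
          nlinarith [Real.pi_pos]
      linarith
    · rw [e1]; ring
    · rw [e2]; ring
  · obtain ⟨j, hj⟩ : ∃ j, N + 1 = 3 * j := ⟨(N + 1) / 3, by omega⟩
    have hjZ : (N : ℤ) = 3 * j - 1 := by
      have : (N : ℤ) + 1 = 3 * j := by exact_mod_cast hj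
      linarith
    have e1 : H N 1 = H N 0 * (starRingEnd ℂ) (h N (j : ℤ)) :=
      H_eq hN0 (k := 1) (by rw [hjZ]; ring)
    have e2 : H N (-1) = H N 0 * (starRingEnd ℂ) (h N (-(j : ℤ))) :=
      H_eq hN0 (k := -1) (by rw [hjZ]; ring)
    rw [h_neg hN0] at e2
    have hv : h N (j : ℤ) = Complex.exp (((Real.pi * ((N + 1) / (3 * N))) : ℝ) * Complex.I) := by
      rw [h, ← mul_one (Complex.exp (_ * Complex.I)), ← exp_eq_one_of (j : ℤ), ← Complex.exp_add]
      congr 1
      have hjc : (N : ℂ) + 1 = 3 * j := by exact_mod_cast hj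
      push_cast
      field_simp
      have hjc' : (j : ℂ) = (N + 1) / 3 := by rw [hjc]; ring
      rw [hjc']
      ring
    refine ⟨-(starRingEnd ℂ) (h N (j : ℤ)), ?_, ?_, ?_, ?_⟩
    · rw [norm_neg, RCLike.norm_conj, norm_h]
    · rw [Complex.neg_re, Complex.conj_re, hv, Complex.exp_ofReal_mul_I_re]
      have : 0 ≤ Real.cos (Real.pi * ((N + 1) / (3 * N))) := by
        apply Real.cos_nonneg_of_neg_pi_div_two_le_of_le
        · have : 0 ≤ Real.pi * (((N : ℝ) + 1) / (3 * N)) := by positivity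
          linarith [Real.pi_pos]
        · have : ((N : ℝ) + 1) / (3 * N) ≤ 1 / 2 := by
            rw [div_le_div_iff₀ (by linarith) (by norm_num)]; linarith
          nlinarith [Real.pi_pos]
      linarith
    · rw [e1]; ring
    · rw [e2]; ring

end Pool.Agent.H197R4.VL
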